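import Pool.Agent.Y770.AP.Rep

/-!
# Comparison of the boundary functions of two varieties with the same factors at small primes
-/

set_option autoImplicit false

open Complex Filter Topology Set MeasureTheory Metric NumberField IsDedekindDomain
open scoped ENNReal

namespace Pool.Agent.Y770.ZR

open Pool.Agent.TH339.MP
open Pool.Agent.Y770.SC (nb tw norm_nb norm_tw bb_tw nm_pos chi_one chi_mul)
open Pool.Agent.Y770.AP
open Pool.Agent.TH958.BV (edgePoint angle)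

section
variable {b b' : PP → ℂ} {M : ℝ}

lemma PS_near2 (hb : ∀ x, ‖b x‖ ≤ M / (x.2 + 1 : ℕ)) {X : ℕ} {δ T : ℝ} (hδ : 0 ≤ δ)
    (h : ∀ x ∈ TX X, ‖b' x * ee (fr x) T - b x‖ ≤ M * δ) (u : ℝ) :
    ‖PS b' X (u + T) - PS b X u‖ ≤ M * X * δ := by
  have hM := M_nonneg hb
  unfold Pool.Agent.TH339.MP.PS
  rw [← Finset.sum_sub_distrib]
  have h1 : ∀ x ∈ TX X, ‖b' x * (wt 1 x : ℂ) * ee (fr x) (u + T) -
      b x * (wt 1 x : ℂ) * ee (fr x) u‖ ≤ M * δ := by
    intro x hx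
    have h0 := h x hx
    rw [mem_TX] at hx
    have hq := two_le_qq x
    have e : b' x * (wt 1 x : ℂ) * ee (fr x) (u + T) - b x * (wt 1 x : ℂ) * ee (fr x) u =
        (wt 1 x : ℂ) * ee (fr x) u * (b' x * ee (fr x) T - b x) := by
      rw [ee_add]
      ring
    have h3 : wt 1 x ≤ 1 := by
      rw [wt_one]
      rw [div_le_one (by positivity)]
      exact_mod_cast (by omega : 1 ≤ qq x)
    rw [e, norm_mul, norm_mul, norm_ee, mul_one, Complex.norm_real,
      Real.norm_of_nonneg (wt_nonneg 1 x)]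
    calc wt 1 x * ‖b' x * ee (fr x) T - b x‖ ≤ 1 * (M * δ) :=
          mul_le_mul h3 h0 (norm_nonneg _) zero_le_one
      _ = M * δ := one_mul _
  refine (norm_sum_le _ _).trans ((Finset.sum_le_sum h1).trans ?_)
  rw [Finset.sum_const, nsmul_eq_mul]
  have h2 : ((TX X).card : ℝ) ≤ X := by exact_mod_cast card_TX X
  calc ((TX X).card : ℝ) * (M * δ) ≤ X * (M * δ) := mul_le_mul_of_nonneg_right h2 (by positivity)
    _ = M * X * δ := by ring

/-- the main estimate, for two coefficient systems -/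
theorem close2 (hb : ∀ x, ‖b x‖ ≤ M / (x.2 + 1 : ℕ)) (hb' : ∀ x, ‖b' x‖ ≤ M / (x.2 + 1 : ℕ))
    {X : ℕ} (hX : 2 ≤ X) {δ T : ℝ} (hδ : 0 ≤ δ)
    (h : ∀ x ∈ TX X, ‖b' x * ee (fr x) T - b x‖ ≤ M * δ) (t : ℝ) :
    ∫⁻ u in Icc t (t + 1), ENNReal.ofReal (‖bl b' (u + T) - bl b u‖ ^ 2) ≤
      ENNReal.ofReal (3 * (129600 * M ^ 2 / Real.log X + (M * X * δ) ^ 2)) := by
  have hM := M_nonneg hb
  obtain ⟨m1, -, h1⟩ := boundary hb
  obtain ⟨m2, -, h2⟩ := boundary hb'
  have hlogX : 0 < Real.log X := Real.log_pos (by exact_mod_cast (by omega : 1 < X))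
  set E : ℝ := 64800 * M ^ 2 / Real.log X with hE
  have hE0 : 0 ≤ E := by positivity
  have key : ∀ u, ENNReal.ofReal (‖bl b' (u + T) - bl b u‖ ^ 2) ≤
      3 * ENNReal.ofReal (‖bl b' (u + T) - PS b' X (u + T)‖ ^ 2) +
      (3 * ENNReal.ofReal ((M * X * δ) ^ 2) + 3 * ENNReal.ofReal (‖bl b u - PS b X u‖ ^ 2)) := by
    intro u
    have h3 : ‖bl b' (u + T) - bl b u‖ ≤ ‖bl b' (u + T) - PS b' X (u + T)‖ +
        ‖PS b' X (u + T) - PS b X u‖ + ‖bl b u - PS b X u‖ := by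
      have e : bl b' (u + T) - bl b u = (bl b' (u + T) - PS b' X (u + T)) +
          (PS b' X (u + T) - PS b X u) - (bl b u - PS b X u) := by ring
      rw [e]
      exact (norm_sub_le _ _).trans (add_le_add (norm_add_le _ _) le_rfl)
    have h4 := PS_near2 hb hδ h u
    have h5 : ‖bl b' (u + T) - bl b u‖ ≤ ‖bl b' (u + T) - PS b' X (u + T)‖ +
        M * X * δ + ‖bl b u - PS b X u‖ := h3.trans (by linarith)
    have h6 : ‖bl b' (u + T) - bl b u‖ ^ 2 ≤ 3 * (‖bl b' (u + T) - PS b' X (u + T)‖ ^ 2 +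
        (M * X * δ) ^ 2 + ‖bl b u - PS b X u‖ ^ 2) :=
      (pow_le_pow_left₀ (norm_nonneg _) h5 2).trans (sq_three _ _ _)
    refine (ENNReal.ofReal_le_ofReal h6).trans (le_of_eq ?_)
    rw [ENNReal.ofReal_mul (by norm_num), ENNReal.ofReal_add (by positivity) (by positivity),
      ENNReal.ofReal_add (by positivity) (by positivity)]
    have e3 : ENNReal.ofReal 3 = 3 := by norm_num
    rw [e3]
    ring
  have m3 : AEMeasurable (fun u => ENNReal.ofReal (‖bl b u - PS b X u‖ ^ 2))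
      (volume.restrict (Icc t (t + 1))) := by
    refine ENNReal.measurable_ofReal.comp_aemeasurable ?_
    exact ((m1.restrict.sub (continuous_PS b X).measurable.aemeasurable).norm.pow_const 2)
  calc ∫⁻ u in Icc t (t + 1), ENNReal.ofReal (‖bl b' (u + T) - bl b u‖ ^ 2)
      ≤ ∫⁻ u in Icc t (t + 1), (3 * ENNReal.ofReal (‖bl b' (u + T) - PS b' X (u + T)‖ ^ 2) +
      (3 * ENNReal.ofReal ((M * X * δ) ^ 2) + 3 * ENNReal.ofReal (‖bl b u - PS b X u‖ ^ 2))) :=
        lintegral_mono key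
    _ = 3 * (∫⁻ u in Icc t (t + 1), ENNReal.ofReal (‖bl b' (u + T) - PS b' X (u + T)‖ ^ 2)) +
        (3 * ENNReal.ofReal ((M * X * δ) ^ 2) +
          3 * ∫⁻ u in Icc t (t + 1), ENNReal.ofReal (‖bl b u - PS b X u‖ ^ 2)) := by
        have m4 : AEMeasurable (fun u => 3 * ENNReal.ofReal (‖bl b u - PS b X u‖ ^ 2))
          (volume.restrict (Icc t (t + 1))) := m3.const_mul 3
        rw [lintegral_add_right' _ (by exact aemeasurable_const.add m4),
          lintegral_add_right' _ m4, lintegral_const_mul' _ _ (by norm_num),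
          lintegral_const_mul'' _ m3, lintegral_const]
        simp
    _ ≤ 3 * ENNReal.ofReal E + (3 * ENNReal.ofReal ((M * X * δ) ^ 2) + 3 * ENNReal.ofReal E) := by
        have h7 := h2 X hX (t + T)
        rw [← lint_shift (fun u => ENNReal.ofReal (‖bl b' u - PS b' X u‖ ^ 2))] at h7
        gcongr
        exact h1 X hX t
    _ = ENNReal.ofReal (3 * (129600 * M ^ 2 / Real.log X + (M * X * δ) ^ 2)) := by
        have e3 : (3 : ℝ≥0∞) = ENNReal.ofReal 3 := by norm_num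
        rw [e3, ← ENNReal.ofReal_mul (by norm_num), ← ENNReal.ofReal_mul (by norm_num),
          ← ENNReal.ofReal_add (by positivity) (by positivity),
          ← ENNReal.ofReal_add (by positivity) (by positivity)]
        congr 1
        rw [hE]
        ring

end

section
variable {K : Type} [Field K] [NumberField K] {N N' q : ℕ}
  {i : ℕ} {S S' : Set (HeightOneSpectrum (𝓞 K))} {α : HeightOneSpectrum (𝓞 K) → Fin N → ℂ}
  {β : HeightOneSpectrum (𝓞 K) → Fin N' → ℂ}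

/-- the Euler factors at the primes of norm at most `x` agree -/
def Agree (x : ℕ) (S : Set (HeightOneSpectrum (𝓞 K))) (α : HeightOneSpectrum (𝓞 K) → Fin N → ℂ)
    (S' : Set (HeightOneSpectrum (𝓞 K))) (β : HeightOneSpectrum (𝓞 K) → Fin N' → ℂ) : Prop :=
  ∀ v : HeightOneSpectrum (𝓞 K), Ideal.absNorm v.asIdeal ≤ x → (v ∈ S ↔ v ∈ S') ∧
    (v ∉ S → Finset.univ.val.map (β v) = Finset.univ.val.map (α v))

lemma nb_agree {x : ℕ} (h : Agree x S α S' β) (i : ℕ) {v : HeightOneSpectrum (𝓞 K)}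
    (hv : nm v ≤ x) {m : ℕ} (hm : m ≠ 0) :
    ∑ j, nb i S' β v j ^ m = ∑ j, nb i S α v j ^ m := by
  obtain ⟨h1, h2⟩ := h v hv
  by_cases hS : v ∈ S
  · have e1 : ∀ j, nb i S α v j = 0 := fun j => by
      unfold Pool.Agent.Y770.SC.nb
      rw [if_pos hS]
    have e2 : ∀ j, nb i S' β v j = 0 := fun j => by
      unfold Pool.Agent.Y770.SC.nb
      rw [if_pos (h1.1 hS)]
    simp only [e1, e2, zero_pow hm, Finset.sum_const_zero]
  · have hS' : v ∉ S' := fun h3 => hS (h1.2 h3)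
    have e1 : ∀ j, nb i S α v j = α v j / (((nm v : ℝ) ^ ((i : ℝ) / 2) : ℝ) : ℂ) := fun j => by
      unfold Pool.Agent.Y770.SC.nb
      rw [if_neg hS]
    have e2 : ∀ j, nb i S' β v j = β v j / (((nm v : ℝ) ^ ((i : ℝ) / 2) : ℝ) : ℂ) := fun j => by
      unfold Pool.Agent.Y770.SC.nb
      rw [if_neg hS']
    simp only [e1, e2]
    have h3 := congrArg (fun s : Multiset ℂ =>
      (s.map fun z => (z / (((nm v : ℝ) ^ ((i : ℝ) / 2) : ℝ) : ℂ)) ^ m).sum) (h2 hS)
    simp only [Multiset.map_map] at h3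
    exact h3

lemma bb_agree {X : ℕ} (h : Agree X S α S' β) (i : ℕ) {x : PP} (hx : qq x ≤ X) :
    bb (nb i S' β) x = bb (nb i S α) x := by
  unfold Pool.Agent.TH339.MP.bb
  refine Finset.sum_congr rfl fun v hv => ?_
  split_ifs with hd
  · rw [mem_Sp] at hv
    have h1 : nm v ≤ X := by
      refine le_trans ?_ hx
      rw [nm_eq, hv]
      unfold Pool.Agent.TH339.MP.qq
      exact Nat.pow_le_pow_right x.1.2.pos (Nat.le_of_dvd (Nat.succ_pos _) hd)
    have h2 : (x.2 + 1) / dg v ≠ 0 :=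
      (Nat.div_pos (Nat.le_of_dvd (Nat.succ_pos _) hd) (dg_pos v)).ne'
    rw [nb_agree h i h1 h2]
  · rfl

theorem FB_close2 (χ : DirichletCharacter ℂ q)
    (hα : ∀ v, v ∉ S → ∀ j, ‖α v j‖ = (nm v : ℝ) ^ ((i : ℝ) / 2))
    (hβ : ∀ v, v ∉ S' → ∀ j, ‖β v j‖ = (nm v : ℝ) ^ ((i : ℝ) / 2)) {M : ℝ}
    (hM : (N : ℝ) * Module.finrank ℚ K ≤ M) (hM' : (N' : ℝ) * Module.finrank ℚ K ≤ M) {X : ℕ}
    (hX : 2 ≤ X) {δ T : ℝ} (hδ : 0 ≤ δ) (hag : Agree X S α S' β)
    (hT : Period X δ (fun n : ℕ => χ (n : ZMod q)) T) (t : ℝ) :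
    ∫⁻ u in Icc t (t + 1), ENNReal.ofReal (‖FB χ i S' β (u + T) -
      FB (1 : DirichletCharacter ℂ 1) i S α u‖ ^ 2) ≤
      ENNReal.ofReal (3 * (129600 * M ^ 2 / Real.log X + (M * X * δ) ^ 2)) := by
  have hb : ∀ x, ‖bb (nb i S α) x‖ ≤ M / (x.2 + 1 : ℕ) := fun x =>
    (norm_bb (norm_nb hα) x).trans (div_le_div_of_nonneg_right (by rw [mul_comm]; exact hM)
      (by positivity))
  have hb' : ∀ x, ‖bb (tw (fun n : ℕ => χ (n : ZMod q)) (nb i S' β)) x‖ ≤ M / (x.2 + 1 : ℕ) :=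
    fun x => (hbtw χ hβ x).trans (div_le_div_of_nonneg_right (by rw [mul_comm]; exact hM')
      (by positivity))
  have hM0 := M_nonneg hb
  have e2 : bb (tw (fun n : ℕ => (1 : DirichletCharacter ℂ 1) (n : ZMod 1)) (nb i S α)) =
      bb (nb i S α) := by
    congr 1
    funext v j
    unfold Pool.Agent.Y770.SC.tw
    have : (1 : DirichletCharacter ℂ 1) ((nm v : ℕ) : ZMod 1) = 1 :=
      MulChar.one_apply (isUnit_of_subsingleton _)
    simp only
    rw [this, one_mul]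
  have h1 : ∀ x ∈ TX X, ‖bb (tw (fun n : ℕ => χ (n : ZMod q)) (nb i S' β)) x * ee (fr x) T -
      bb (nb i S α) x‖ ≤ M * δ := by
    intro x hx
    rw [mem_TX] at hx
    have hq := two_le_qq x
    rw [bb_tw (chi_one χ) (chi_mul χ), bb_agree hag i hx]
    have h2 : ‖χ ((qq x : ℕ) : ZMod q) * ee (fr x) T - 1‖ ≤ δ := by
      have h3 := hT (qq x) (by omega) hx
      rw [cpow_ee (by omega)] at h3
      rwa [fr_eq]
    have e : χ ((qq x : ℕ) : ZMod q) * bb (nb i S α) x * ee (fr x) T - bb (nb i S α) x =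
        bb (nb i S α) x * (χ ((qq x : ℕ) : ZMod q) * ee (fr x) T - 1) := by ring
    rw [e, norm_mul]
    exact mul_le_mul (norm_b_le hb x) h2 (norm_nonneg _) hM0
  have h2 := close2 hb hb' hX hδ h1 t
  unfold Pool.Agent.Y770.AP.FB
  rw [e2]
  exact h2

end

end Pool.Agent.Y770.ZR
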