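import Pool.Agent.Y770.ZR.Close

/-!
# A zero on the edge recurs
-/

set_option autoImplicit false

open Complex Filter Topology Set MeasureTheory Metric NumberField IsDedekindDomain
open scoped ENNReal

namespace Pool.Agent.Y770.ZR

open Pool.Agent.TH339.MP
open Pool.Agent.Y770.SC (nb tw norm_nb norm_tw bb_tw nm_pos chi_one chi_mul)
open Pool.Agent.Y770.AP
open Pool.Agent.TH958.BV (edgePoint angle)

section
variable {K : Type} [Field K] [NumberField K] {N N' q : ℕ} (χ : DirichletCharacter ℂ q)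
  {i : ℕ} {S S' : Set (HeightOneSpectrum (𝓞 K))} {α : HeightOneSpectrum (𝓞 K) → Fin N → ℂ}
  {β : HeightOneSpectrum (𝓞 K) → Fin N' → ℂ}

open Classical in
/-- the Euler product of the twist over the primes outside `S` -/
noncomputable def LFun (S : Set (HeightOneSpectrum (𝓞 K)))
    (α : HeightOneSpectrum (𝓞 K) → Fin N → ℂ) (s : ℂ) : ℂ :=
  ∏' v : HeightOneSpectrum (𝓞 K), if v ∈ S then 1 else
    ∏ j, (1 - χ ((Ideal.absNorm v.asIdeal : ℕ) : ZMod q) * α v j *
      (Ideal.absNorm v.asIdeal : ℂ) ^ (-s))⁻¹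

lemma LFun_eq (hα : ∀ v, v ∉ S → ∀ j, ‖α v j‖ = (nm v : ℝ) ^ ((i : ℝ) / 2)) {s : ℂ}
    (hs : (i : ℝ) / 2 + 1 < s.re) : LFun χ S α s = cexp (logL χ S α s) := by
  have hs1 : 1 < (s - i / 2).re := by
    have e : (s - i / 2).re = s.re - i / 2 := by simp
    rw [e]
    linarith
  have h1 := hasSum_all (norm_tw (c := fun n : ℕ => χ (n : ZMod q)) (fun n => χ.norm_le_one _)
    (norm_nb hα)) hs1
  rw [← logL_eq χ hα hs1, sub_add_cancel] at h1
  rw [← h1.cexp.tprod_eq]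
  unfold LFun
  refine tprod_congr fun v => ?_
  simp only [Function.comp_apply]
  unfold Pool.Agent.TH339.MP.lv
  rw [Complex.exp_sum]
  by_cases hv : v ∈ S
  · rw [if_pos hv]
    symm
    refine Finset.prod_eq_one fun j _ => ?_
    unfold Pool.Agent.Y770.SC.tw Pool.Agent.Y770.SC.nb
    rw [if_pos hv]
    simp
  · rw [if_neg hv]
    refine Finset.prod_congr rfl fun j _ => ?_
    have hn0 : ((nm v : ℕ) : ℂ) ≠ 0 := by
      have := nm_pos v
      exact_mod_cast this.ne'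
    have hnr : (0 : ℝ) < (nm v : ℝ) := by exact_mod_cast nm_pos v
    have hn1 : (1 : ℝ) < (nm v : ℝ) := by
      have := two_le_nm v
      exact_mod_cast (by omega : 1 < nm v)
    have e1 : ((((nm v : ℝ) ^ ((i : ℝ) / 2) : ℝ)) : ℂ) = ((nm v : ℕ) : ℂ) ^ ((i : ℂ) / 2) := by
      rw [Complex.ofReal_cpow (Nat.cast_nonneg _)]
      push_cast
      rfl
    have e2 : ((nm v : ℕ) : ℂ) ^ (-(s - i / 2)) =
        ((nm v : ℕ) : ℂ) ^ (-s) * ((nm v : ℕ) : ℂ) ^ ((i : ℂ) / 2) := by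
      rw [← Complex.cpow_add _ _ hn0]
      congr 1
      ring
    have hne : ((nm v : ℕ) : ℂ) ^ ((i : ℂ) / 2) ≠ 0 := by
      rw [Complex.cpow_def_of_ne_zero hn0]
      exact Complex.exp_ne_zero _
    have e3 : tw (fun n : ℕ => χ (n : ZMod q)) (nb i S α) v j * ((nm v : ℕ) : ℂ) ^ (-(s - i / 2)) =
        χ ((nm v : ℕ) : ZMod q) * α v j * ((nm v : ℕ) : ℂ) ^ (-s) := by
      unfold Pool.Agent.Y770.SC.tw Pool.Agent.Y770.SC.nb
      rw [if_neg hv, e1, e2]
      field_simp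
    rw [e3]
    have hlt : ‖χ ((nm v : ℕ) : ZMod q) * α v j * ((nm v : ℕ) : ℂ) ^ (-s)‖ < 1 := by
      rw [norm_mul, norm_mul, hα v hv j, Complex.norm_natCast_cpow_of_pos (nm_pos v)]
      have h3 : ‖χ ((nm v : ℕ) : ZMod q)‖ ≤ 1 := χ.norm_le_one _
      have h4 : (nm v : ℝ) ^ ((i : ℝ) / 2) * (nm v : ℝ) ^ ((-s).re) < 1 := by
        rw [← Real.rpow_add hnr]
        refine Real.rpow_lt_one_of_one_lt_of_neg hn1 ?_
        simp only [Complex.neg_re]
        linarith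
      have h5 : 0 ≤ (nm v : ℝ) ^ ((i : ℝ) / 2) * (nm v : ℝ) ^ ((-s).re) := by positivity
      calc ‖χ ((nm v : ℕ) : ZMod q)‖ * (nm v : ℝ) ^ ((i : ℝ) / 2) * (nm v : ℝ) ^ ((-s).re)
          = ‖χ ((nm v : ℕ) : ZMod q)‖ * ((nm v : ℝ) ^ ((i : ℝ) / 2) * (nm v : ℝ) ^ ((-s).re)) := by
            ring
        _ ≤ 1 * ((nm v : ℝ) ^ ((i : ℝ) / 2) * (nm v : ℝ) ^ ((-s).re)) :=
            mul_le_mul_of_nonneg_right h3 h5
        _ < 1 := by rw [one_mul]; exact h4
    have hne1 : 1 - χ ((nm v : ℕ) : ZMod q) * α v j * ((nm v : ℕ) : ℂ) ^ (-s) ≠ 0 := by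
      intro h0
      rw [sub_eq_zero] at h0
      rw [← h0, norm_one] at hlt
      exact lt_irrefl _ hlt
    rw [Complex.exp_neg, Complex.exp_log hne1]
    rfl

/-- `G` is the boundary function on the edge -/
def IsBoundary (i : ℕ) (S : Set (HeightOneSpectrum (𝓞 K)))
    (α : HeightOneSpectrum (𝓞 K) → Fin N → ℂ) (G : ℝ → ℂ) : Prop :=
  ∃ Z : Set ℝ, dimH Z = 0 ∧ ∀ t : ℝ, t ∉ Z → ∀ C : ℝ,
    Tendsto (LFun χ S α) (𝓝[angle i t C] (edgePoint i t)) (𝓝 (G t))

theorem isBoundary (hα : ∀ v, v ∉ S → ∀ j, ‖α v j‖ = (nm v : ℝ) ^ ((i : ℝ) / 2)) :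
    IsBoundary χ i S α (fun t => cexp (FB χ i S α t)) := by
  obtain ⟨Z, hZ, h⟩ := FB_angle χ hα
  refine ⟨Z, hZ, fun t ht C => ?_⟩
  refine ((Complex.continuous_exp.tendsto _).comp (h t ht C)).congr' ?_
  filter_upwards [self_mem_nhdsWithin] with s hs
  rw [Function.comp_apply, LFun_eq χ hα hs.1]

lemma neBot_angle (i : ℕ) (t : ℝ) : (𝓝[angle i t 1] (edgePoint i t)).NeBot := by
  rw [← mem_closure_iff_nhdsWithin_neBot, Metric.mem_closure_iff]
  intro e he
  refine ⟨edgePoint i t + ((e / 2 : ℝ) : ℂ), ⟨?_, ?_⟩, ?_⟩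
  · unfold Pool.Agent.TH958.BV.edgePoint
    simp only [Complex.add_re, Complex.ofReal_re, Complex.mul_re, Complex.I_re, Complex.I_im,
      Complex.ofReal_im]
    linarith
  · have e1 : edgePoint i t + ((e / 2 : ℝ) : ℂ) - edgePoint i t = ((e / 2 : ℝ) : ℂ) := by ring
    have e2 : (edgePoint i t + ((e / 2 : ℝ) : ℂ)).re = (i : ℝ) / 2 + 1 + e / 2 := by
      unfold Pool.Agent.TH958.BV.edgePoint
      simp
    rw [e1, e2, Complex.norm_real, Real.norm_of_nonneg (by linarith)]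
    linarith
  · rw [dist_eq_norm]
    have e1 : edgePoint i t - (edgePoint i t + ((e / 2 : ℝ) : ℂ)) = -((e / 2 : ℝ) : ℂ) := by ring
    rw [e1, norm_neg, Complex.norm_real, Real.norm_of_nonneg (by linarith)]
    linarith

lemma null_of_dimH {Z : Set ℝ} (h : dimH Z = 0) : volume Z = 0 := by
  have h1 : μH[(1 : ℝ)] Z = 0 := by
    have h2 := hausdorffMeasure_of_dimH_lt (s := Z) (d := 1) (by rw [h]; simp)
    simpa using h2
  rw [← hausdorffMeasure_real]
  exact h1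

/-- two boundary functions agree almost everywhere -/
lemma boundary_unique {G G' : ℝ → ℂ} (h : IsBoundary χ i S α G) (h' : IsBoundary χ i S α G') :
    ∀ᵐ t : ℝ, G t = G' t := by
  obtain ⟨Z, hZ, h1⟩ := h
  obtain ⟨Z', hZ', h1'⟩ := h'
  have h2 : volume (Z ∪ Z') = 0 :=
    measure_union_null (null_of_dimH hZ) (null_of_dimH hZ')
  rw [ae_iff]
  refine measure_mono_null ?_ h2
  intro t ht
  by_contra hn
  simp only [Set.mem_union, not_or] at hn
  have := neBot_angle i t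
  exact ht (tendsto_nhds_unique (h1 t hn.1 1) (h1' t hn.2 1))

/-- the Euler product has a meromorphic continuation with a zero at the point of height `τ` -/
def HasZero (i : ℕ) (S : Set (HeightOneSpectrum (𝓞 K)))
    (α : HeightOneSpectrum (𝓞 K) → Fin N → ℂ) (τ : ℝ) : Prop :=
  ∃ Λ : ℂ → ℂ, MeromorphicAt Λ (edgePoint i τ) ∧
    (∀ᶠ s in 𝓝 (edgePoint i τ), (i : ℝ) / 2 + 1 < s.re →
      Λ s = LFun (1 : DirichletCharacter ℂ 1) S α s) ∧
    0 < meromorphicOrderAt Λ (edgePoint i τ)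

lemma norm_edge (i : ℕ) (t τ : ℝ) : ‖edgePoint i t - edgePoint i τ‖ = |t - τ| := by
  have e : edgePoint i t - edgePoint i τ = ((t - τ : ℝ) : ℂ) * I := by
    unfold Pool.Agent.TH958.BV.edgePoint
    push_cast
    ring
  rw [e, norm_mul, Complex.norm_I, mul_one, Complex.norm_real, Real.norm_eq_abs]

/-- near a zero the boundary function is small -/
lemma small_near (hα : ∀ v, v ∉ S → ∀ j, ‖α v j‖ = (nm v : ℝ) ^ ((i : ℝ) / 2)) {τ : ℝ}
    (hz : HasZero i S α τ) {ε : ℝ} (hε : 0 < ε) : ∃ r > 0, ∀ᵐ t : ℝ, |t - τ| < r →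
      ‖cexp (FB (1 : DirichletCharacter ℂ 1) i S α t)‖ ≤ ε := by
  obtain ⟨Λ, hm, hc, ho⟩ := hz
  have h1 : Tendsto Λ (𝓝[≠] (edgePoint i τ)) (𝓝 0) := tendsto_zero_of_meromorphicOrderAt_pos ho
  have h2 : ∀ᶠ s in 𝓝[≠] (edgePoint i τ), ‖Λ s‖ < ε := by
    have h3 := h1.norm
    rw [norm_zero] at h3
    exact h3.eventually (gt_mem_nhds hε)
  rw [eventually_nhdsWithin_iff] at h2
  obtain ⟨r, hr, h4⟩ := Metric.eventually_nhds_iff.1 (h2.and hc)
  refine ⟨r, hr, ?_⟩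
  obtain ⟨Z, hZ, h5⟩ := isBoundary (1 : DirichletCharacter ℂ 1) hα
  rw [ae_iff]
  refine measure_mono_null ?_ (null_of_dimH hZ)
  intro t ht
  by_contra hn
  apply ht
  intro htr
  have := neBot_angle i t
  have h6 := (h5 t hn 1).norm
  refine le_of_tendsto h6 ?_
  have h7 : ∀ᶠ s in 𝓝[angle i t 1] (edgePoint i t), dist s (edgePoint i τ) < r := by
    refine mem_nhdsWithin_of_mem_nhds ?_
    refine isOpen_ball.mem_nhds ?_
    rw [mem_ball, dist_eq_norm, norm_edge]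
    exact htr
  filter_upwards [h7, self_mem_nhdsWithin] with s hs1 hs2
  obtain ⟨h8, h9⟩ := h4 hs1
  have hne : s ∈ ({edgePoint i τ}ᶜ : Set ℂ) := by
    intro h0
    rw [Set.mem_singleton_iff] at h0
    have h10 := hs2.1
    rw [h0] at h10
    unfold Pool.Agent.TH958.BV.edgePoint at h10
    simp at h10
  rw [← h9 hs2.1]
  exact (h8 hne).le

/-- the zero recurs -/
theorem recur (hα : ∀ v, v ∉ S → ∀ j, ‖α v j‖ = (nm v : ℝ) ^ ((i : ℝ) / 2)) {τ : ℝ}
    (hz : HasZero i S α τ) (M : ℕ) {ε : ℝ} (hε : 0 < ε) :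
    ∃ (η : ℝ) (x : ℕ) (δ L : ℝ), 0 < η ∧ η ≤ ε ∧ 0 < δ ∧
      (∀ a : ℝ, ∃ T ∈ Icc a (a + L), Period x δ (fun _ => 1) T) ∧
      ∀ (N' : ℕ) (S' : Set (HeightOneSpectrum (𝓞 K))) (β : HeightOneSpectrum (𝓞 K) → Fin N' → ℂ),
        (∀ v, v ∉ S' → ∀ j, ‖β v j‖ = (nm v : ℝ) ^ ((i : ℝ) / 2)) →
        N' * Module.finrank ℚ K ≤ M → Agree x S α S' β →
        ∀ (q : ℕ) (χ : DirichletCharacter ℂ q) (T : ℝ), Period x δ (fun n : ℕ => χ (n : ZMod q)) T →
          ∀ G : ℝ → ℂ, IsBoundary χ i S' β G →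
            volume {u : ℝ | |u| ≤ η ∧ ε < ‖G (τ + T + u)‖} ≤ ENNReal.ofReal (ε * η) := by
  obtain ⟨r, hr, hsm⟩ := small_near hα hz (ε := ε / 3) (by linarith)
  set η : ℝ := min ε (min (r / 2) (1 / 2)) with hη
  have hη0 : 0 < η := lt_min hε (lt_min (by linarith) (by norm_num))
  have hη1 : η ≤ ε := min_le_left _ _
  have hη2 : η ≤ r / 2 := (min_le_right _ _).trans (min_le_left _ _)
  have hη3 : η ≤ 1 / 2 := (min_le_right _ _).trans (min_le_right _ _)
  set M' : ℕ := max M (N * Module.finrank ℚ K) with hM'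
  obtain ⟨x, δ, hx, hδ, hle⟩ := constants (M' : ℝ) (ε * η) (Nat.cast_nonneg M') (by positivity)
  obtain ⟨L, -, hL⟩ := dense_period x hδ
  refine ⟨η, x, δ, L, hη0, hη1, hδ, hL, ?_⟩
  intro N' S' β hβ hN' hag q χ T hT G hG
  have hcl := FB_close2 χ hα hβ (M := (M' : ℝ))
    (by exact_mod_cast le_max_right M (N * Module.finrank ℚ K))
    (by exact_mod_cast hN'.trans (le_max_left M (N * Module.finrank ℚ K))) hx hδ.le hag hT (τ - η)
  have hcl2 := hcl.trans (ENNReal.ofReal_le_ofReal hle)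
  -- measurability
  have hb1 := (boundary (hbtw χ hβ)).1
  have hb2 := (boundary (hbtw (1 : DirichletCharacter ℂ 1) hα)).1
  have hmeas : AEMeasurable (fun u => ENNReal.ofReal (‖FB χ i S' β (u + T) -
      FB (1 : DirichletCharacter ℂ 1) i S α u‖ ^ 2))
      (volume.restrict (Icc (τ - η) (τ - η + 1))) := by
    refine ENNReal.measurable_ofReal.comp_aemeasurable ?_
    have h1 : AEMeasurable (fun u => FB χ i S' β (u + T)) volume :=
      hb1.comp_quasiMeasurePreserving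
        (measurePreserving_add_right volume T).quasiMeasurePreserving
    exact ((h1.restrict.sub hb2.restrict).norm.pow_const 2)
  have hmk := mul_meas_ge_le_lintegral₀ hmeas 1
  rw [one_mul] at hmk
  have hmk2 := hmk.trans hcl2
  -- the exceptional sets
  have hu1 : ∀ᵐ u : ℝ, G (u + T) = cexp (FB χ i S' β (u + T)) := by
    have h1 := boundary_unique χ hG (isBoundary χ hβ)
    exact (measurePreserving_add_right volume T).quasiMeasurePreserving.ae h1
  have hu2 : ∀ᵐ u : ℝ, u ∈ {u : ℝ | |u - τ| ≤ η ∧ ε < ‖G (u + T)‖} →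
      u ∈ {u : ℝ | 1 ≤ ENNReal.ofReal (‖FB χ i S' β (u + T) -
      FB (1 : DirichletCharacter ℂ 1) i S α u‖ ^ 2)} ∩ Icc (τ - η) (τ - η + 1) := by
    filter_upwards [hu1, hsm] with u h1 h2 h3
    obtain ⟨h4, h5⟩ := h3
    have h6 := abs_le.1 h4
    refine ⟨?_, ⟨by linarith [h6.1], by linarith [h6.2]⟩⟩
    have h7 := h2 (by linarith)
    rw [h1] at h5
    have h8 : 1 < ‖FB χ i S' β (u + T) - FB (1 : DirichletCharacter ℂ 1) i S α u‖ := by
      by_contra hcon
      push Not at hcon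
      have h9 : cexp (FB χ i S' β (u + T)) = cexp (FB χ i S' β (u + T) -
          FB (1 : DirichletCharacter ℂ 1) i S α u) *
          cexp (FB (1 : DirichletCharacter ℂ 1) i S α u) := by
        rw [← Complex.exp_add, sub_add_cancel]
      rw [h9, norm_mul] at h5
      have h10 : ‖cexp (FB χ i S' β (u + T) - FB (1 : DirichletCharacter ℂ 1) i S α u)‖ ≤ 3 := by
        rw [Complex.norm_exp]
        have h11 := (Complex.re_le_norm (FB χ i S' β (u + T) -
          FB (1 : DirichletCharacter ℂ 1) i S α u)).trans hcon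
        have h12 : Real.exp (FB χ i S' β (u + T) - FB (1 : DirichletCharacter ℂ 1) i S α u).re ≤
          Real.exp 1 := Real.exp_le_exp.2 h11
        have := Real.exp_one_lt_d9
        linarith
      have h13 : ‖cexp (FB χ i S' β (u + T) - FB (1 : DirichletCharacter ℂ 1) i S α u)‖ *
          ‖cexp (FB (1 : DirichletCharacter ℂ 1) i S α u)‖ ≤ 3 * (ε / 3) :=
        mul_le_mul h10 h7 (norm_nonneg _) (by norm_num)
      linarith
    simp only [Set.mem_ofPred_eq]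
    rw [← ENNReal.ofReal_one]
    exact ENNReal.ofReal_le_ofReal (by nlinarith)
  have hfin : volume {u : ℝ | |u - τ| ≤ η ∧ ε < ‖G (u + T)‖} ≤ ENNReal.ofReal (ε * η) := by
    refine (measure_mono_ae hu2).trans ?_
    refine (le_of_eq ?_).trans hmk2
    exact (Measure.restrict_apply₀' (measurableSet_Icc (a := τ - η)
      (b := τ - η + 1)).nullMeasurableSet).symm
  have hsh : {u : ℝ | |u| ≤ η ∧ ε < ‖G (τ + T + u)‖} =
      (fun u => u + τ) ⁻¹' {u : ℝ | |u - τ| ≤ η ∧ ε < ‖G (u + T)‖} := by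
    ext u
    simp only [Set.mem_ofPred_eq, Set.mem_preimage, add_sub_cancel_right]
    rw [show u + τ + T = τ + T + u by ring]
  rw [hsh, measure_preimage_add_right]
  exact hfin

end

end Pool.Agent.Y770.ZR
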